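import Pool.Agent.helper63.TI.SpecA

/-! Row ta:CNJ (helper24): the elements `φ^(-s) (φ h)^s`. -/

set_option autoImplicit false

namespace Pool.Agent.TI

open Polynomial NumberField Pool.Agent.GJ Pool.Agent.TK Pool.Agent.TQ Pool.Agent.TFQ Pool.Agent.TD Pool.Agent.AQ
open Pool.Agent.FJ (VT Om chiO IsFrobO rf rs)
open scoped TensorProduct

noncomputable section

theorem CNJ_one (hNB1 : TQ.NB1_stmt) {l : ℕ} [Fact l.Prime] (D : Dat l)
    [∀ i, IsDedekindDomain (CR Om l (D.μ i) (D.a i))] (i : Fin D.k) (g : Om ≃+* Om) (hg : D.Fix g) (h : g = 1) :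
    galA l hg i = LinearMap.id := by
  subst h
  exact (hNB1 l l D).2.1 hg i

theorem CNJ_PF {l : ℕ} [Fact l.Prime] (D : Dat l) (g : Om ≃+* Om) (hg : D.Fix g)
    (hr : ∀ x : Om, x ^ l = 1 → g x = x) : PF D g := by
  refine ⟨hr, fun i => ⟨1, ⟨fun j => ?_, fun j => rfl⟩⟩⟩
  exact hg i j

theorem CNJ_av {q : ℕ} [Fact q.Prime] {V : Type} [AddCommGroup V] [Module ℚ_[q] V] (P P' Y : Module.End ℚ_[q] V)
    (s : ℕ) : av P P' Y (s + 1) = P' * av P P' Y s * P + Y := by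
  unfold av
  rw [Finset.sum_range_succ', pow_zero, pow_zero, one_mul, mul_one, Finset.mul_sum, Finset.sum_mul]
  congr 1
  refine Finset.sum_congr rfl fun j _ => ?_
  rw [pow_succ', pow_succ]
  simp only [mul_assoc]

theorem CNJ (hNRA : NRA_stmt) (hBGP : AQ.BGP_stmt) (hNB1 : TQ.NB1_stmt) (hDD : GJ.DD_stmt) : CNJ_stmt := by
  intro l _ D i hfin φ hφ P' Y hP' s' m
  have hl0 : NeZero (l : Om) := ⟨by exact_mod_cast (Fact.out (p := l.Prime)).ne_zero⟩
  have hded : ∀ i, IsDedekindDomain (CR Om l (D.μ i) (D.a i)) := fun i => hDD Om l (D.n i) (D.μ i) (D.a i)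
  obtain ⟨hPF1, hPFm, hPFi, hB⟩ := hBGP l l D
  obtain ⟨hmul, hone, hAP, -, hTP⟩ := hB i
  -- the lattice
  obtain ⟨T, hT, hTm⟩ := (hNB1 l l D).2.2.2.2.2.2.2.2.2.2.2.1 i hfin
  have hTZ : TZ D l i = T := by
    ext f
    rw [hTm]
    rfl
  have hLat : Lat (q := l) (TZ D l i) := by
    rw [hTZ]
    exact hT
  obtain ⟨-, -, hN3, hN4⟩ := hNRA l (VA D l i) (TZ D l i) hLat
  -- the inverse of `galP φ`
  have hφi : PF D φ⁻¹ := hPFi φ hφ
  have hPQ : ∀ v, galP l hφ i (galP l hφi i v) = v := by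
    intro v
    have h3 : PF D (φ * φ⁻¹) := hPFm _ _ hφ hφi
    rw [← hmul φ φ⁻¹ hφ hφi h3 v]
    have h4 : ∀ (g : Om ≃+* Om) (hg : PF D g), g = 1 → galP l hg i v = v := by
      intro g hg hg1
      subst hg1
      exact hone hg v
    exact h4 _ h3 (mul_inv_cancel φ)
  have hQP : ∀ v, galP l hφi i (galP l hφ i v) = v := by
    intro v
    have h3 : PF D (φ⁻¹ * φ) := hPFm _ _ hφi hφ
    rw [← hmul φ⁻¹ φ hφi hφ h3 v]
    have h4 : ∀ (g : Om ≃+* Om) (hg : PF D g), g = 1 → galP l hg i v = v := by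
      intro g hg hg1
      subst hg1
      exact hone hg v
    exact h4 _ h3 (inv_mul_cancel φ)
  have hP'Q : P' = galP l hφi i := by
    apply LinearMap.ext
    intro v
    have h1 := LinearMap.congr_fun hP' (galP l hφi i v)
    rw [Module.End.mul_apply, hPQ, Module.End.one_apply] at h1
    exact h1
  have hQT : ∀ t ∈ TZ D l i, galP l hφi i t ∈ TZ D l i := fun t ht => hTP φ⁻¹ hφi t ht
  have hPT : ∀ t ∈ TZ D l i, galP l hφ i t ∈ TZ D l i := fun t ht => hTP φ hφ t ht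
  -- the stronger statement
  have key : ∀ s : ℕ, ∃ N0 : ℕ, ∀ N ≥ N0, ∀ (h : Om ≃+* Om) (hh : D.Fix h), (∀ x : Om, x ^ l = 1 → h x = x) →
      Nr (TZ D l i) (galA l hh i) Y N m →
      ∃ hg : D.Fix ((φ ^ s)⁻¹ * (φ * h) ^ s), (∀ x : Om, x ^ l = 1 → ((φ ^ s)⁻¹ * (φ * h) ^ s) x = x) ∧
        Nr (TZ D l i) (galA l hg i) (av (galP l hφ i) P' Y s) N m := by
    intro s
    induction s with
    | zero =>
      refine ⟨0, fun N _ h hh hr hN => ?_⟩
      have e : (φ ^ 0)⁻¹ * (φ * h) ^ 0 = 1 := by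
        rw [pow_zero, pow_zero, inv_one, one_mul]
      have hg : D.Fix ((φ ^ 0)⁻¹ * (φ * h) ^ 0) := by
        rw [e]
        intro i' j
        rfl
      refine ⟨hg, ?_, ?_⟩
      · rw [e]
        intro x _
        rfl
      · intro t ht
        refine ⟨0, (TZ D l i).zero_mem, ?_⟩
        rw [CNJ_one hNB1 D i _ hg e]
        simp [av]
    | succ s ih =>
      obtain ⟨N0, hN0⟩ := ih
      obtain ⟨N1, hN1⟩ := hN3 (galP l hφi i ∘ₗ av (galP l hφ i) P' Y s ∘ₗ galP l hφ i) Y m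
      refine ⟨max N0 N1, fun N hN h hh hr hNr => ?_⟩
      obtain ⟨hg, hgr, hgN⟩ := hN0 N (le_trans (le_max_left _ _) hN) h hh hr hNr
      set g := (φ ^ s)⁻¹ * (φ * h) ^ s with hgdef
      have e : (φ ^ (s + 1))⁻¹ * (φ * h) ^ (s + 1) = φ⁻¹ * (g * (φ * h)) := by
        rw [hgdef, pow_succ, pow_succ, mul_inv_rev]
        simp only [mul_assoc]
      have hPg : PF D g := CNJ_PF D g hg hgr
      have hPh : PF D h := CNJ_PF D h hh hr
      have hPφh : PF D (φ * h) := hPFm _ _ hφ hPh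
      have hPgφh : PF D (g * (φ * h)) := hPFm _ _ hPg hPφh
      have hPall : PF D (φ⁻¹ * (g * (φ * h))) := hPFm _ _ hφi hPgφh
      have hfix' : D.Fix (φ⁻¹ * (g * (φ * h))) := by
        intro i' j
        show φ⁻¹ (g (φ (h (D.a i' j)))) = D.a i' j
        rw [hh i' j]
        obtain ⟨π, hπ⟩ := hφ.2 i'
        have h1 : φ (D.a i' j) = D.a i' (π j) := hπ.pt j
        rw [h1, hg i' (π j), ← h1]
        exact φ.symm_apply_apply _
      have hfix : D.Fix ((φ ^ (s + 1))⁻¹ * (φ * h) ^ (s + 1)) := by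
        rw [e]
        exact hfix'
      refine ⟨hfix, ?_, ?_⟩
      · rw [e]
        exact hPall.1
      · have hA : galA l hfix i = (galP l hφi i ∘ₗ galA l hg i ∘ₗ galP l hφ i) ∘ₗ galA l hh i := by
          have h4 : ∀ (g' : Om ≃+* Om) (hg' : D.Fix g'), g' = φ⁻¹ * (g * (φ * h)) →
              galA l hg' i = galA l hfix' i := by
            intro g' hg' he
            subst he
            rfl
          rw [h4 _ hfix e]
          apply LinearMap.ext
          intro v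
          rw [← hAP _ hPall hfix' v, hmul _ _ hφi hPgφh hPall, hmul _ _ hPg hPφh hPgφh, hmul _ _ hφ hPh hPφh,
            hAP _ hPg hg, hAP _ hPh hh]
          rfl
        rw [hA, CNJ_av, hP'Q]
        rw [hP'Q] at hgN hN1
        refine hN1 N (le_trans (le_max_right _ _) hN) _ _ ?_ hNr
        exact hN4 _ _ _ _ N m hQT hPT (LinearMap.ext hQP) hgN
  obtain ⟨N0, hN0⟩ := key s'
  refine ⟨N0, fun N hN h hh hr hNr => ?_⟩
  obtain ⟨hg, -, hgN⟩ := hN0 N hN h hh hr hNr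
  exact ⟨hg, hgN⟩

end

end Pool.Agent.TI
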