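import Pool.Agent.helper63.TI.SpecG

/-! Row ta:GDC (helper24): the determinant of a cyclic Frobenius element. -/

set_option autoImplicit false

namespace Pool.Agent.TI

open Polynomial NumberField Pool.Agent.GJ Pool.Agent.TK Pool.Agent.TQ Pool.Agent.TFQ Pool.Agent.TD
open Pool.Agent.FJ (VT Om chiO IsFrobO rf rs)

noncomputable section

theorem GDC_iota : Nonempty (Om →+* ℂ) := by
  have : Algebra.IsAlgebraic ℚ Om := AlgebraicClosure.isAlgebraic ℚ
  exact ⟨(IsAlgClosed.lift : Om →ₐ[ℚ] ℂ).toRingHom⟩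

theorem GDC_count : Countable Om := by
  rw [← Cardinal.mk_le_aleph0_iff]
  have h : Algebra.IsAlgebraic ℚ (AlgebraicClosure ℚ) := AlgebraicClosure.isAlgebraic ℚ
  refine (Algebra.IsAlgebraic.cardinalMk_le_max ℚ (AlgebraicClosure ℚ)).trans ?_
  simp

/-- the datum with the single curve `(μ, a)` -/
def GDC_dat (l n : ℕ) [Fact l.Prime] (μ : Fin (n + 1) → ℕ) (a : Fin (n + 1) → Om) [Good Om l μ a] : Dat l where
  k := 1
  n := fun _ => n
  μ := fun _ => μ
  a := fun _ => a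
  good := fun _ => inferInstance
  e := fun _ => 1
  r := 0
  m := fun j => j.elim0
  pos := fun j => j.elim0

theorem GDC_mul (hNB1 : NB1_stmt) {l n : ℕ} [Fact l.Prime] {μ : Fin (n + 1) → ℕ} {a : Fin (n + 1) → Om}
    [Good Om l μ a] [hd : IsDedekindDomain (CR Om l μ a)] (q : ℕ) [Fact q.Prime] (s t : rootsOfUnity l Om) :
    (zK q (s * t) : Module.End ℚ_[q] (VT q (JC Om l μ a))) = zK q s * zK q t := by
  have : ∀ i, IsDedekindDomain (CR Om l ((GDC_dat l n μ a).μ i) ((GDC_dat l n μ a).a i)) := fun _ => hd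
  exact (hNB1 l q (GDC_dat l n μ a)).2.2.2.1 (⟨0, Nat.one_pos⟩ : Fin 1) s t

theorem GDC_one (hNB1 : NB1_stmt) {l n : ℕ} [Fact l.Prime] {μ : Fin (n + 1) → ℕ} {a : Fin (n + 1) → Om}
    [Good Om l μ a] [hd : IsDedekindDomain (CR Om l μ a)] (q : ℕ) [Fact q.Prime] :
    (zK q (1 : rootsOfUnity l Om) : Module.End ℚ_[q] (VT q (JC Om l μ a))) = 1 := by
  have : ∀ i, IsDedekindDomain (CR Om l ((GDC_dat l n μ a).μ i) ((GDC_dat l n μ a).a i)) := fun _ => hd
  exact (hNB1 l q (GDC_dat l n μ a)).2.2.2.2.1 (⟨0, Nat.one_pos⟩ : Fin 1)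

theorem GDC_pow (hNB1 : NB1_stmt) {l n : ℕ} [Fact l.Prime] {μ : Fin (n + 1) → ℕ} {a : Fin (n + 1) → Om}
    [Good Om l μ a] [hd : IsDedekindDomain (CR Om l μ a)] (q : ℕ) [Fact q.Prime] (s : rootsOfUnity l Om) (e : ℕ) :
    (zK q (s ^ e) : Module.End ℚ_[q] (VT q (JC Om l μ a))) =
      (zK q s : Module.End ℚ_[q] (VT q (JC Om l μ a))) ^ e := by
  induction e with
  | zero =>
    rw [pow_zero, pow_zero]
    exact GDC_one hNB1 q
  | succ e ih => rw [pow_succ, pow_succ, ← ih, GDC_mul hNB1]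

theorem GDC_gen {l : ℕ} [Fact l.Prime] (s : rootsOfUnity l Om) (hs : Prim s) (s' : rootsOfUnity l Om) :
    ∃ j : ℕ, s ^ j = s' := by
  have hl : NeZero l := ⟨(Fact.out : l.Prime).ne_zero⟩
  have hz : IsPrimitiveRoot ((s : Omˣ) : Om) l := hs
  have h1 : ((s' : Omˣ) : Om) ^ l = 1 := by
    rw [← Units.val_pow_eq_pow_val, (mem_rootsOfUnity l _).1 s'.2, Units.val_one]
  obtain ⟨j, -, hj⟩ := hz.eq_pow_of_pow_eq_one h1
  refine ⟨j, ?_⟩
  apply Subtype.ext
  apply Units.ext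
  rw [SubmonoidClass.coe_pow, Units.val_pow_eq_pow_val]
  exact hj

theorem GDC (hLC : LC_stmt) (hVF : VF_stmt) (hNBK : NBK_stmt) (hDD : GJ.DD_stmt) (hNB1 : NB1_stmt) : GDC_stmt := by
  intro l n q _ _ hl hn μ a _ F _ _ _ χ A σ hσ hσl s hs P hP hrel hcyc
  have hl0 : NeZero (l : Om) := ⟨by exact_mod_cast (Fact.out (p := l.Prime)).ne_zero⟩
  have hded : IsDedekindDomain (CR Om l μ a) := hDD Om l n μ a
  obtain ⟨ι⟩ := GDC_iota
  have hcount : Countable Om := GDC_count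
  have hfree : IsFreeZ l n (zK q s : Module.End ℚ_[q] (VT q (JC Om l μ a))) :=
    @hVF Om _ _ hcount ι l n q _ _ hl hn μ a _ hded s hs
  obtain ⟨-, -, hcomm, hsum, -⟩ := hNBK Om l n q μ a
  have hroot : σ ((s : Omˣ) : Om) = ((s : Omˣ) : Om) := by
    apply hσl
    rw [← Units.val_pow_eq_pow_val, (mem_rootsOfUnity l _).1 s.2, Units.val_one]
  obtain ⟨t, ht⟩ := hcyc
  refine hLC q l (VT q (JC Om l μ a)) (zK q s) n hfree (hsum s hs) (VT.map q (actA σ hσ 1))
    (fun d => (P d).map (Int.castRingHom ℚ_[q])) t (hcomm σ hσ s hroot) ?_ ?_ ?_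
  · show (P 0).map (Int.castRingHom ℚ_[q]) = 1
    rw [hP.zero, Polynomial.map_one]
  · rw [← hrel]
    exact Finset.sum_congr rfl fun d _ => by rw [hP.op d]
  · intro W w1 w2 w3
    refine ht W (fun s' w hw => ?_) w2 w3
    obtain ⟨j, hj⟩ := GDC_gen s hs s'
    rw [← hj, GDC_pow hNB1]
    have h2 : ∀ k : ℕ, ((zK q s : Module.End ℚ_[q] (VT q (JC Om l μ a))) ^ k) w ∈ W := by
      intro k
      induction k with
      | zero => rw [pow_zero]; exact hw
      | succ k ih =>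
        rw [pow_succ', Module.End.mul_apply]
        exact w1 _ ih
    exact h2 j

end

end Pool.Agent.TI
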